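import Pool.Agent.N51.PM.Core

set_option autoImplicit false

open Finset Pool.Agent.N51.PM

/-- Every instance with matroid-rank valuations (values in the reals, value 0 on the empty set,
marginals 0 or 1, submodular), with any finite nonempty set of agents and any finite set of items,
has pairwise disjoint bundles `B i` with `v i (B i) = |B i|` which maximise the sum of the values
over all (complete or partial) allocations and such that every allocation `X` extending them, in
particular every complete one (and there are complete ones), is PMMS and has the same values. -/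
theorem Pool.Agent.Results.MP_a38173_lc.MatroidRank.result
    {M ι : Type} [Fintype M] [DecidableEq M] [Fintype ι] [DecidableEq ι] [Nonempty ι]
    (v : ι → Finset M → ℝ)
    (h0 : ∀ i, v i ∅ = 0)
    (hbin : ∀ i (S : Finset M) (g : M),
      v i (insert g S) - v i S = 0 ∨ v i (insert g S) - v i S = 1)
    (hsub : ∀ i (S T : Finset M), v i (S ∪ T) + v i (S ∩ T) ≤ v i S + v i T) :
    ∃ B : ι → Finset M,
      (∀ i j, i ≠ j → Disjoint (B i) (B j)) ∧
      (∀ i, v i (B i) = ((B i).card : ℝ)) ∧
      (∀ Y : ι → Finset M, (∀ i j, i ≠ j → Disjoint (Y i) (Y j)) →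
        ∑ i, v i (Y i) ≤ ∑ i, v i (B i)) ∧
      (∃ X : ι → Finset M, (∀ i j, i ≠ j → Disjoint (X i) (X j)) ∧ (∀ g, ∃ i, g ∈ X i) ∧
        ∀ i, B i ⊆ X i) ∧
      (∀ X : ι → Finset M, (∀ i j, i ≠ j → Disjoint (X i) (X j)) → (∀ i, B i ⊆ X i) →
        (∀ i, v i (X i) = v i (B i)) ∧
        ∀ i j, i ≠ j → ∀ A A' : Finset M, Disjoint A A' → A ∪ A' = X i ∪ X j →
          min (v i A) (v i A') ≤ v i (X i)) := by
  have hex : ∀ i (S : Finset M), ∃ k : ℕ, v i S = (k : ℝ) := by
    intro i S
    induction S using Finset.induction_on with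
    | empty => exact ⟨0, by simp [h0]⟩
    | insert a S _ ih =>
      obtain ⟨k, hk⟩ := ih
      rcases hbin i S a with h | h
      · exact ⟨k, by rw [← hk]; linarith⟩
      · exact ⟨k + 1, by push_cast; rw [← hk]; linarith⟩
  choose r hr using hex
  have hrk : ∀ i, RK (r i) := by
    intro i
    refine ⟨?_, ?_, ?_, ?_⟩
    · have := hr i ∅
      rw [h0] at this
      exact_mod_cast this.symm
    · intro S g
      have h1 := hr i S
      have h2 := hr i (insert g S)
      have h3 : (r i S : ℝ) ≤ r i (insert g S) := by
        rcases hbin i S g with h | h <;> linarith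
      exact_mod_cast h3
    · intro S g
      have h1 := hr i S
      have h2 := hr i (insert g S)
      have h3 : (r i (insert g S) : ℝ) ≤ r i S + 1 := by
        rcases hbin i S g with h | h <;> linarith
      exact_mod_cast h3
    · intro S T
      have h1 := hsub i S T
      rw [hr, hr, hr, hr] at h1
      exact_mod_cast h1
  obtain ⟨B, hB, hmin⟩ := ex_min hrk
  have hBv : ∀ i, v i (B i) = ((B i).card : ℝ) := by
    intro i
    rw [hr, hB.1.1 i]
  refine ⟨B, hB.1.2, hBv, ?_, ex_complete hB.1.2, ?_⟩
  · intro Y hY
    have h1 := sum_max hrk hB hY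
    calc ∑ i, v i (Y i) = ((∑ i, r i (Y i) : ℕ) : ℝ) := by
          push_cast
          exact Finset.sum_congr rfl (fun i _ => hr i _)
      _ ≤ ((∑ i, (B i).card : ℕ) : ℝ) := by exact_mod_cast h1
      _ = ∑ i, v i (B i) := by
          push_cast
          exact Finset.sum_congr rfl (fun i _ => (hBv i).symm)
  · intro X hX hBX
    have hval : ∀ i, v i (X i) = ((B i).card : ℝ) := by
      intro i
      rw [hr, val_ext hrk hB hX hBX i]
    refine ⟨fun i => by rw [hval, hBv], ?_⟩
    intro i j hij A A' hd hA
    by_contra hcon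
    rw [not_le, lt_min_iff, hval, hr, hr] at hcon
    have h1 : (B i).card < r i A := by exact_mod_cast hcon.1
    have h2 : (B i).card < r i A' := by exact_mod_cast hcon.2
    exact pmms hrk hB hmin hX hBX hij hd hA h1 h2
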